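import Pool.Agent.H95.NV.Targets1
import Pool.Agent.H14.CM4.CDTW
import Pool.Agent.H13.CM4.CCVF

/-!
# The discriminant of a CM extension
-/

set_option autoImplicit false

open NumberField
open scoped nonZeroDivisors

namespace Pool.Agent.H74.NV

open Pool.Agent.H95.NV NumberField
open Pool.Agent.H65.CM4 (Pl rv nm dk dg V2)
open Pool.Agent.H95.CM (lin)
open Pool.Agent.H13.CM4 (linA bV lin_bV discr_family card_index)
open Module

/-- the index of an ideal -/
theorem absNorm_index {k : Type} [Field k] [NumberField k] (J : Ideal (𝓞 k)) :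
    J.toAddSubgroup.index = Ideal.absNorm J := by
  rw [Ideal.absNorm_apply]
  rfl

theorem cad {F : Type} [Field F] [NumberField F] (a b : 𝓞 F) :
    ((a + b : 𝓞 F) : F) = (a : F) + (b : F) := map_add (algebraMap (𝓞 F) F) a b

theorem cml {F : Type} [Field F] [NumberField F] (a b : 𝓞 F) :
    ((a * b : 𝓞 F) : F) = (a : F) * (b : F) := map_mul (algebraMap (𝓞 F) F) a b

/-- the inverse of `f` in terms of an integral ideal `J` with `f J = (x)` -/
theorem mem_fi_iff {k : Type} [Field k] [NumberField k] {f J : Ideal (𝓞 k)} {x : 𝓞 k}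
    (hx : x ≠ 0) (hf : f ≠ ⊥) (hJ : f * J = Ideal.span {x}) (q : k) :
    q ∈ fi f ↔ ∃ a ∈ J, (a : k) = (x : k) * q := by
  have hx' : (x : k) ≠ 0 := fun h => hx (RingOfIntegers.ext h)
  constructor
  · intro hq
    have hxf : x ∈ f := by
      have h1 : x ∈ f * J := by
        rw [hJ]
        exact Ideal.mem_span_singleton_self x
      exact (Ideal.mul_le_inf h1).1
    obtain ⟨a, ha⟩ := hq x hxf
    have h2 : f * Ideal.span {a} ≤ f * J := by
      rw [hJ, Ideal.mul_le]
      intro c hc d hd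
      obtain ⟨e, he⟩ := Ideal.mem_span_singleton'.1 hd
      obtain ⟨t, ht⟩ := hq c hc
      refine Ideal.mem_span_singleton'.2 ⟨e * t, ?_⟩
      apply RingOfIntegers.ext
      rw [← he, cml, cml, cml, cml, ht, ha]
      ring
    have h3 : f * J ∣ f * Ideal.span {a} := Ideal.dvd_iff_le.2 h2
    have h4 : J ∣ Ideal.span {a} := (mul_dvd_mul_iff_left hf).1 h3
    have h5 : a ∈ J := (Ideal.span_singleton_le_iff_mem _).1 (Ideal.dvd_iff_le.1 h4)
    have h6 : (a : k) = (x : k) * q := by
      rw [ha]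
      ring
    exact ⟨a, h5, h6⟩
  · rintro ⟨a, ha, hq⟩ c hc
    have h1 : c * a ∈ f * J := Ideal.mul_mem_mul hc ha
    rw [hJ] at h1
    obtain ⟨t, ht⟩ := Ideal.mem_span_singleton'.1 h1
    refine ⟨t, ?_⟩
    have h2 : (t : k) * (x : k) = (c : k) * (a : k) := by
      rw [← cml, ← cml, ht]
    apply mul_right_cancel₀ hx'
    rw [h2, hq]
    ring

theorem pf_DSC (hCOO : T_COO) (_hFNV : T_FNV) (hTCX : T_TCX) : T_DSC := by
  classical
  intro k K _ _ _ _ _ _ _ f D b δ hKD
  have hTC : IsTotallyComplex K := hTCX k K D δ hKD.pos hKD.sq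
  obtain ⟨-, hind, hnorm, -⟩ := hCOO k K D b δ hKD.pos hKD.sq
  -- the lattice
  have hint : ∀ u : V2 k, ∃ t : 𝓞 K, (t : K) = linA (1 : K) (w b δ) u := by
    intro u
    rw [hKD.int]
    refine ⟨u.1, (u.2 : k), ?_, ?_⟩
    · intro a _
      exact ⟨u.2 * a, cml _ _⟩
    · show algebraMap k K (u.1 : k) * 1 + algebraMap k K (u.2 : k) * w b δ = _
      rw [mul_one]
  choose φ0 hφ0 using hint
  let φ : V2 k →+ 𝓞 K := AddMonoidHom.mk' φ0 (by
    intro u v
    apply RingOfIntegers.ext
    rw [cad, hφ0, hφ0, hφ0, map_add])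
  have hφ : ∀ u, ((φ u : 𝓞 K) : K) = linA (1 : K) (w b δ) u := hφ0
  have hφi : Function.Injective φ := by
    rw [injective_iff_map_eq_zero]
    intro u hu
    have h1 := hφ u
    rw [hu] at h1
    have h2 : algebraMap k K (u.1 : k) * 1 + algebraMap k K (u.2 : k) * w b δ = 0 := by
      rw [← show (((0 : 𝓞 K)) : K) = 0 from rfl, h1]
      rfl
    rw [mul_one] at h2
    have h3 := hind _ _ h2
    exact Prod.ext (RingOfIntegers.ext h3.1) (RingOfIntegers.ext h3.2)
  let σ : Module.Free.ChooseBasisIndex ℤ (𝓞 K) ≃ Fin 2 × Module.Free.ChooseBasisIndex ℤ (𝓞 k) :=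
    Fintype.equivOfCardEq (card_index k K)
  let b0 : Basis (Fin 2 × Module.Free.ChooseBasisIndex ℤ (𝓞 k)) ℤ (𝓞 K) :=
    (RingOfIntegers.basis K).reindex σ
  have d0 : Algebra.discr ℚ (fun i => ((b0 i : 𝓞 K) : K)) = (discr K : ℚ) := by
    rw [coe_discr, ← Algebra.discr_reindex ℚ (integralBasis K) σ]
    congr 1
    funext i
    simp [b0, integralBasis_apply]
  have d1 : Algebra.discr ℚ (fun i => ((φ (bV (k := k) i) : 𝓞 K) : K)) =
      ((b0.det (fun i => φ (bV (k := k) i)) : ℤ) : ℚ) ^ 2 * (discr K : ℚ) := by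
    rw [← d0]
    exact discr_family b0 (fun i => φ (bV (k := k) i)) (algebraMap (𝓞 K) K).toAddMonoidHom
  have d2 : (fun i => ((φ (bV (k := k) i) : 𝓞 K) : K)) =
      fun i : Fin 2 × Module.Free.ChooseBasisIndex ℤ (𝓞 k) =>
        algebraMap k K (integralBasis k i.2) * (if i.1 = 0 then (1 : K) else w b δ) := by
    funext i
    rw [hφ, lin_bV]
  rw [d2] at d1
  have hD := Pool.Agent.H14.CM4.pf_DTW k K (1 : K) (w b δ) 1 (b : k)
    (((b : k) ^ 2 + (D : k)) / 4) (by
      intro x y
      rw [mul_one, hnorm]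
      ring)
  -- the index
  have hidx : φ.range.index = (b0.det (fun i => φ (bV (k := k) i))).natAbs := by
    let e : V2 k ≃ₗ[ℤ] φ.range := (AddMonoidHom.ofInjective hφi).toIntLinearEquiv
    exact AddSubgroup.index_eq_natAbs_det b0 φ.range (bV.map e)
  have hidx2 : φ.range.index = Ideal.absNorm f := by
    obtain ⟨x, hxf, hx⟩ := Submodule.exists_mem_ne_zero_of_ne_bot hKD.f_ne
    have hx' : (x : k) ≠ 0 := fun h => hx (RingOfIntegers.ext h)
    obtain ⟨J, hJ⟩ := Ideal.dvd_iff_le.2 ((Ideal.span_singleton_le_iff_mem _).2 hxf)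
    have hfi := mem_fi_iff hx hKD.f_ne hJ.symm
    have hco : ∀ z : 𝓞 K, ∃ a : 𝓞 k, a ∈ J ∧ ∃ (p : 𝓞 k) (q : k),
        (z : K) = algebraMap k K (p : k) + algebraMap k K q * w b δ ∧
          (a : k) = (x : k) * q := by
      intro z
      obtain ⟨p, q, hq, hz⟩ := (hKD.int z).1 ⟨z, rfl⟩
      obtain ⟨a, ha, haq⟩ := (hfi q).1 hq
      exact ⟨a, ha, p, q, hz, haq⟩
    have huniq : ∀ (p p' : 𝓞 k) (q q' : k),
        algebraMap k K (p : k) + algebraMap k K q * w b δ =
          algebraMap k K (p' : k) + algebraMap k K q' * w b δ → q = q' := by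
      intro p p' q q' h
      have h1 := hind ((p : k) - p') (q - q') (by
        rw [map_sub, map_sub]
        linear_combination h)
      exact sub_eq_zero.1 h1.2
    choose χ0 hχJ hχ using hco
    let χ : 𝓞 K →+ 𝓞 k := AddMonoidHom.mk' χ0 (by
      intro z z'
      obtain ⟨p, q, h1, h2⟩ := hχ z
      obtain ⟨p', q', h1', h2'⟩ := hχ z'
      obtain ⟨p'', q'', h1'', h2''⟩ := hχ (z + z')
      apply RingOfIntegers.ext
      have h3 : q'' = q + q' := by
        apply huniq p'' (p + p')
        rw [← h1'', map_add, cadd, cad, h1, h1']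
        ring
      rw [cad, h2, h2', h2'', h3]
      ring)
    have hχ' : ∀ (z : 𝓞 K) (p : 𝓞 k) (q : k),
        (z : K) = algebraMap k K (p : k) + algebraMap k K q * w b δ →
        ((χ z : 𝓞 k) : k) = (x : k) * q := by
      intro z p q hz
      obtain ⟨p', q', h1, h2⟩ := hχ z
      change (χ0 z : k) = _
      rw [h2, huniq p' p q' q (by rw [← h1, hz])]
    have hcomap : φ.range = (Ideal.span {x}).toAddSubgroup.comap χ := by
      refine AddSubgroup.ext fun z => ?_
      rw [AddSubgroup.mem_comap, AddMonoidHom.mem_range]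
      change _ ↔ χ z ∈ Ideal.span {x}
      rw [Ideal.mem_span_singleton']
      constructor
      · rintro ⟨u, rfl⟩
        refine ⟨u.2, ?_⟩
        apply RingOfIntegers.ext
        rw [hχ' (φ u) u.1 (u.2 : k) (by
          rw [hφ]
          show algebraMap k K (u.1 : k) * 1 + algebraMap k K (u.2 : k) * w b δ = _
          rw [mul_one])]
        rw [cml]
        ring
      · rintro ⟨t, ht⟩
        obtain ⟨p, q, h1, h2⟩ := hχ z
        refine ⟨(p, t), ?_⟩
        apply RingOfIntegers.ext
        rw [hφ]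
        show algebraMap k K (p : k) * 1 + algebraMap k K (t : k) * w b δ = (z : K)
        have h3 : (t : k) = q := by
          have h4 : (t : k) * (x : k) = (x : k) * q := by
            rw [← h2, ← cml, ht]
            rfl
          apply mul_right_cancel₀ hx'
          rw [h4]
          ring
        rw [h3, h1, mul_one]
    have hrange : χ.range = J.toAddSubgroup := by
      refine AddSubgroup.ext fun a => ?_
      rw [AddMonoidHom.mem_range]
      change _ ↔ a ∈ J
      constructor
      · rintro ⟨z, rfl⟩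
        exact hχJ z
      · intro ha
        have hq : (a : k) / (x : k) ∈ fi f := by
          rw [hfi]
          exact ⟨a, ha, by field_simp⟩
        obtain ⟨z, hz⟩ := (hKD.int (algebraMap k K ((0 : 𝓞 k) : k) +
          algebraMap k K ((a : k) / (x : k)) * w b δ)).2 ⟨0, _, hq, rfl⟩
        refine ⟨z, ?_⟩
        apply RingOfIntegers.ext
        rw [hχ' z 0 _ hz]
        field_simp
    have h1 : φ.range.index = (Ideal.span {x}).toAddSubgroup.relIndex J.toAddSubgroup := by
      rw [hcomap, AddSubgroup.index_comap, hrange]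
    have hle : (Ideal.span {x}).toAddSubgroup ≤ J.toAddSubgroup := by
      intro y hy
      have hy' : y ∈ Ideal.span {x} := hy
      rw [hJ] at hy'
      exact (Ideal.mul_le_inf hy').2
    have h2 := AddSubgroup.relIndex_mul_index hle
    rw [← h1, absNorm_index, absNorm_index, hJ, map_mul] at h2
    have hJ0 : Ideal.absNorm J ≠ 0 := by
      rw [Ne, Ideal.absNorm_eq_zero_iff]
      rintro rfl
      rw [Ideal.mul_bot, Ideal.span_singleton_eq_bot] at hJ
      exact hx hJ
    exact Nat.eq_of_mul_eq_mul_right (Nat.pos_of_ne_zero hJ0) h2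
  -- conclusion
  have a1 : ((b0.det (fun i => φ (bV (k := k) i)) : ℤ) : ℝ) ^ 2 = nm f ^ 2 := by
    unfold nm
    rw [← hidx2, hidx, Nat.cast_natAbs, Int.cast_abs, sq_abs]
  have h4 := congrArg (fun x : ℚ => |(x : ℝ)|) d1
  push_cast at h4
  rw [abs_mul, abs_sq, a1, hD] at h4
  rw [mul_comm, ← h4]
  congr 1
  refine Finset.prod_congr rfl fun v _ => ?_
  have h5 : (4 : k) * (1 * (((b : k) ^ 2 + (D : k)) / 4)) - (b : k) ^ 2 = (D : k) := by ring
  rw [h5, abs_of_pos (hKD.pos v)]

end Pool.Agent.H74.NV
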